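import Pool.Agent.Y775.W3.All
import Pool.Agent.Y775.W3.Exact

/-!
# Goncharov's polylogarithmic complexes of `k(x)`, `k` an algebraic extension of `F_p`

Let `k` be any algebraic extension of a prime field `F_p`, for instance a finite field, and
`F = k(x)`.  Here `K_m(F) ⊗ ℚ = 0` for `m ≥ 2` (Harder, Quillen), so Goncharov's conjecture predicts
that all complexes `Γ(F,n) ⊗ ℚ`, `n ≥ 2`, are acyclic.  We prove that their cohomology vanishes in
the degrees `n` and `n - 1` for all `n` (and in degree `1`); in particular the complexes of weight
`2` and `3` are acyclic, for instance for `F = F_q(x)`.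

For `k` algebraically closed the acyclicity is the result `AcyclicRatFunc`, whose proof (splitting
of all polynomials into linear factors) does not extend to other fields of constants.

The new point is `Y775.W3.span_poly`: the elements `f ⊗ f ⊗ (1 - f)` span
`Sym²(F^*) ⊗ F^* ⊗ ℚ`.  The dual statement is about maps `T : F^* × F^* × F^* → ℚ`, symmetric in the
first two variables, with `T(f, f, 1 - f) = 0`.  It is proved by induction on the degree: let `P` be
a monic irreducible polynomial of degree `n` and suppose that `T` vanishes on polynomials of degree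
less than `n`. The form `κ(u, v) = T(u, v, P)` vanishes by isotropy and Euclidean descent; the form
`ω(u, v) = T(P, u, v)` is antisymmetric, and the function `B(r) = ω(r, 1 - r)` on the residue field
`k[x]/(P)` satisfies the five term relation of the dilogarithm; since the residue field is a union
of finite fields, the sum over a finite subfield shows `B = 0`. The weight two argument then gives
`ω = 0`, and the remaining number `T(P, P, u)` vanishes too. The terms with several primes of the
same degree are treated separately.

The core lemmas are in `Pool/Agent/Y775/W3/` with contributions of helper953 (sum over finite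
fields), helper684 (homogeneous and isotropic forms), helper261 (five term relation), helper310
(polynomials), helper328 (integers), helper212 and helper117 (weight two), helper43 (locally finite
fields).  The passage from the spanning statement to the complexes is modelled on the
starting file `Pool/Agent/H39R2/Gon/E2.lean`.
The definitions are in `Pool/Agent/H39R2/GonP/Defs.lean`.
-/

set_option autoImplicit false

namespace Pool.Agent.Results.MP_9c6ec7_al.FiniteConstantFields

open GonP

/-- Let `k` be an algebraic extension of `F_p`, for instance a finite field, and `F = k(x)`.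
The differentials of the complexes `Γ(F,n) ⊗ ℚ`, `n ≥ 2`, exist and are unique, and the cohomology
of `Γ(F,n) ⊗ ℚ` vanishes in the degrees `n`, `n - 1` and `1`, for all `n ≥ 2`. -/
theorem result (p : ℕ) [Fact p.Prime] (k : Type) [Field k] [Algebra (ZMod p) k]
    [Algebra.IsAlgebraic (ZMod p) k] :
    ∃ D : Differentials (RatFunc k), (∀ D' : Differentials (RatFunc k), D' = D) ∧
      -- `H^n(Γ(F,n) ⊗ ℚ) = 0`, `n = j + 2`
      (∀ j : ℕ, Function.Surjective (D.e j)) ∧
      -- `H^(n-1)(Γ(F,n) ⊗ ℚ) = 0`, `n = j + 3`
      (∀ j : ℕ, Function.Exact (D.d 0 j) (D.e (j + 1))) ∧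
      -- `H^1(Γ(F,2) ⊗ ℚ) = 0`
      Function.Injective (D.e 0) ∧
      -- `H^1(Γ(F,n) ⊗ ℚ) = 0`, `n = m + 3`
      (∀ m : ℕ, Function.Injective (D.d m 0)) := by
  have : CharP k p := charP_of_injective_algebraMap (algebraMap (ZMod p) k).injective p
  have hk := H39Gon.frob_fix k p
  obtain ⟨D⟩ := H39Gon.exists_differentials k p hk
  obtain ⟨s0, s1⟩ := Y775.W3.span_poly k p
  obtain ⟨h1, h2, h4, h5⟩ := Y775.W3.topTwo k p hk s0 s1 D
  refine ⟨ofD D, fun D' => unique (ofD D) D', fun j => ?_, fun j => ?_, ?_, fun m => ?_⟩
  · exact (eLQ (RatFunc k) (j + 2)).symm.surjective.comp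
      ((h5 j).comp (eT (RatFunc k) 0 j).surjective)
  · exact exact_conj (eT (RatFunc k) 1 j) (eT (RatFunc k) 0 (j + 1)) (eLQ (RatFunc k) (j + 3)) _ _
      (h4 j)
  · exact (eLQ (RatFunc k) 2).symm.injective.comp (h2.comp (eT (RatFunc k) 0 0).injective)
  · exact (eT (RatFunc k) m 1).symm.injective.comp
      ((h1 m).comp (eT (RatFunc k) (m + 1) 0).injective)

end Pool.Agent.Results.MP_9c6ec7_al.FiniteConstantFields
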