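import Pool.Agent.Y775.W3.All
import Pool.Agent.Y775.W3.Ker

/-!
# Goncharov's polylogarithmic complexes of the field of rational numbers

For number fields `F` Goncharov's conjecture predicts `H^i(Γ(F,n) ⊗ ℚ) = 0` for `i ≠ 1`.
For `F = ℚ` we treat the degree `i = n - 1`, for all `n ≥ 3`: every cocycle in
`(B_2(ℚ) ⊗ Λ^{n-2} ℚ^*) ⊗ ℚ` is the sum of a combination of the elements
`{x}_2 ⊗ x ∧ y_1 ∧ ... ∧ y_{n-3}`, which are the images of the `{x}_3 ⊗ y_1 ∧ ... ∧ y_{n-3}`, and of
a combination of elements `α ⊗ y_1 ∧ ... ∧ y_{n-2}` with `δ_2 α = 0`. By theorems of Borel and Suslin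
(`K_3(ℚ)` is finite, and `K_3^{ind}(ℚ) ⊗ ℚ` is the kernel of `δ_2` on the Bloch group tensor `ℚ`)
elements `α` with `δ_2 α = 0` have finite order in `B_2(ℚ)`, so that `H^{n-1}(Γ(ℚ,n) ⊗ ℚ) = 0`.

The proof: the elements `f ⊗ f ⊗ (1 - f)` span `Sym²(ℚ^*) ⊗ ℚ^* ⊗ ℚ` (`Y775.W3.span_rat`).  Dually, a
map `T : ℚ^* × ℚ^* × ℚ^* → ℚ` which is symmetric in the first two variables and satisfies
`T(f, f, 1 - f) = 0` is zero. This is proved by induction: let `p` be a prime number and suppose that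
`T` vanishes on integers of absolute value less than `p`. The form `κ(u, v) = T(u, v, p)` vanishes
by isotropy and Euclidean descent; the form `ω(u, v) = T(p, u, v)` is antisymmetric and the function
`r ↦ ω(r, 1 - r)` on the residue field `F_p` satisfies the five term relation of the dilogarithm,
hence it is zero (sum over `F_p`); then `ω = 0` by Tate's argument and finally `T(p, p, u) = 0`.

The core lemmas are in `Pool/Agent/Y775/W3/` with contributions of helper953 (sum over finite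
fields), helper684 (homogeneous and isotropic forms), helper261 (five term relation), helper328
(integers), helper117 (weight two), helper43 (locally finite fields).
The definitions are in `Pool/Agent/H39R2/GonP/Defs.lean`.
-/

set_option autoImplicit false

namespace Pool.Agent.Results.MP_9c6ec7_al.RationalNumbers

open GonP

open scoped TensorProduct

/-- the rational numbers, weight `n ≥ 2`: the degrees `n` and `n - 1` of `Γ(ℚ,n) ⊗ ℚ` -/
theorem result :
    -- the differential `(B_2(ℚ) ⊗ Λ^j ℚ^*)_ℚ → (Λ^{j+2} ℚ^*)_ℚ` exists, is unique and onto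
    (∀ j : ℕ, ∃ e : TQ ℚ 2 j → LQ ℚ (j + 2), IsE j e ∧ (∀ e', IsE j e' → e' = e) ∧
      Function.Surjective e) ∧
    -- the kernel of `(B_2(ℚ) ⊗ Λ^{j+1} ℚ^*)_ℚ → (Λ^{j+3} ℚ^*)_ℚ`, `n = j + 3`
    (∀ (j : ℕ) (e : TQ ℚ 2 (j + 1) → LQ ℚ (j + 3)), IsE (j + 1) e → ∀ v, e v = 0 →
      v ∈ Submodule.span ℚ
        ({w | ∃ (x : ℚ) (y : Fin j → UV ℚ), x ≠ 0 ∧
            w = tq 2 (j + 1) (some x) (Fin.cons (cl x) y)} ∪
          {w | ∃ (α : ZP ℚ) (y : Fin (j + 1) → UV ℚ), delta2 ℚ α = 0 ∧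
            w = toRat (tm (toQuo (R 2 ℚ) α) (wedge y))})) := by
  refine ⟨fun j => ?_, fun j e he v hv => Y775.W3.ker_P Y775.W3.span_rat.2 j e he v hv⟩
  obtain ⟨e, he⟩ := Y775.W3.exists_e (F := ℚ) j
  exact ⟨e, he, fun e' he' => Y775.W3.unique_e j e e' he he',
    Y775.W3.surj_P Y775.W3.span_rat.1 j e he⟩

end Pool.Agent.Results.MP_9c6ec7_al.RationalNumbers
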